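import Mathlib
import Pool.Agent.Helper44.QB.Fam

/-!
PROJECT QB, leaf (T): transfer along an embedding `ι : O ↪ O'` of the odd generators.

`eG ι : O ⊕ Fin b → O' ⊕ Fin b` on the generators, `eM ι` on the monomials,
`em ι : AA R O b →ₐ AA R O' b` the algebra map.
-/

set_option autoImplicit false

open scoped TensorProduct
open Pool.Agent.Helper44.QA Pool.Agent.Helper44.QB

namespace Pool.Agent.Helper59.QB

noncomputable section

universe u

variable {R : Type u} [CommRing R] {O : Type} [Fintype O] [LinearOrder O]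
  {O' : Type} [Fintype O'] [LinearOrder O'] {b : ℕ}

/-- Extension by zero. -/
def exf (R : Type u) [CommRing R] {O O' : Type} (ι : O ↪ O') : (O → R) →ₗ[R] (O' → R) :=
  Function.ExtendByZero.linearMap R ι

omit [Fintype O] [LinearOrder O] [Fintype O'] [LinearOrder O'] in
theorem exf_apply (ι : O ↪ O') (f : O → R) (i : O) : exf R ι f (ι i) = f i :=
  ι.injective.extend_apply f 0 i

omit [Fintype O] [LinearOrder O] [Fintype O'] [LinearOrder O'] in
theorem exf_apply' (ι : O ↪ O') (f : O → R) (i' : O') (h : ¬ ∃ i, ι i = i') :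
    exf R ι f i' = 0 := Function.extend_apply' _ _ _ h

omit [Fintype O] [Fintype O'] in
theorem exf_single (ι : O ↪ O') (i : O) :
    exf R ι (Pi.single i 1) = Pi.single (ι i) 1 := by
  funext i'
  by_cases h : ∃ a, ι a = i'
  · obtain ⟨a, rfl⟩ := h
    rw [exf_apply]
    by_cases ha : a = i
    · subst ha
      rw [Pi.single_eq_same, Pi.single_eq_same]
    · rw [Pi.single_eq_of_ne ha, Pi.single_eq_of_ne (fun h => ha (ι.injective h))]
  · rw [exf_apply' ι _ _ h, Pi.single_eq_of_ne]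
    rintro rfl
    exact h ⟨i, rfl⟩

/-- The map on the generators. -/
def eG (ι : O ↪ O') (g : O ⊕ Fin b) : O' ⊕ Fin b := Sum.map ι id g

/-- The map on the monomials. -/
def eM (ι : O ↪ O') (m : Mo O b) : Mo O' b := (m.1.map ι, m.2)

/-- The algebra map. -/
def em (ι : O ↪ O') : AA R O b →ₐ[R] AA R O' b := emb b (exf R ι)

omit [Fintype O] [LinearOrder O] [Fintype O'] [LinearOrder O'] in
theorem eG_inl (ι : O ↪ O') (i : O) : eG (b := b) ι (Sum.inl i) = Sum.inl (ι i) := rfl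

omit [Fintype O] [LinearOrder O] [Fintype O'] [LinearOrder O'] in
theorem eG_inr (ι : O ↪ O') (j : Fin b) : eG ι (Sum.inr j) = Sum.inr j := rfl

omit [Fintype O] [LinearOrder O] [Fintype O'] [LinearOrder O'] in
theorem eG_injective (ι : O ↪ O') : Function.Injective (eG (b := b) ι) :=
  Function.Injective.sumMap ι.injective Function.injective_id

omit [Fintype O] [LinearOrder O] [Fintype O'] [LinearOrder O'] in
theorem eM_injective (ι : O ↪ O') : Function.Injective (eM (b := b) ι) := by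
  rintro ⟨S, α⟩ ⟨S', α'⟩ h
  obtain ⟨h1, h2⟩ := Prod.ext_iff.1 h
  exact Prod.ext (Finset.map_injective ι h1) h2

omit [Fintype O] [Fintype O'] in
theorem em_gg (ι : O ↪ O') (g : O ⊕ Fin b) : em (R := R) ι (gg g) = gg (eG ι g) := by
  rcases g with i | j
  · change emb b _ (xx _) = xx _
    rw [emb_xx, exf_single]
  · change emb b _ (XX _) = XX _
    rw [emb_XX]
    rfl

omit [Fintype O] [LinearOrder O] [Fintype O'] [LinearOrder O'] in
theorem em_units (ι : O ↪ O') (u : ℤˣ) (x : AA R O b) : em ι (u • x) = u • em ι x := by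
  rcases Int.units_eq_one_or u with rfl | rfl
  · rw [one_smul, one_smul]
  · rw [Units.neg_smul, one_smul, Units.neg_smul, one_smul, map_neg]

/-- The image of a monomial, up to sign. -/
theorem em_mon (ι : O ↪ O') (m : Mo O b) :
    ∃ u : ℤˣ, em (R := R) ι (mon m) = u • mon (eM ι m) := by
  obtain ⟨S, α⟩ := m
  induction S using Finset.induction_on with
  | empty =>
    refine ⟨1, ?_⟩
    rw [one_smul]
    change emb b _ (tm _ _) = tm (bas R O' (Finset.map ι ∅)) _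
    rw [emb_tm, Finset.map_empty, bas_empty, bas_empty, map_one]
    rfl
  | insert a S ha ih =>
    obtain ⟨u, hu⟩ := ih
    rcases gg_inl_mul_mon (R := R) a ((S, α) : Mo O b) with ⟨h, -⟩ | ⟨-, v, hv⟩
    · exact absurd h ha
    · have h1 : mon (R := R) ((insert a S, α) : Mo O b) = v • (gg (Sum.inl a) * mon (S, α)) := by
        rw [hv, smul_smul, Int.units_mul_self, one_smul]
      have ha' : ι a ∉ (eM ι ((S, α) : Mo O b)).1 := by
        intro h
        obtain ⟨c, hc, hc'⟩ := Finset.mem_map.1 h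
        exact ha (ι.injective hc' ▸ hc)
      rcases gg_inl_mul_mon (R := R) (ι a) (eM ι ((S, α) : Mo O b)) with ⟨h, -⟩ | ⟨-, v', hv'⟩
      · exact absurd h ha'
      · refine ⟨v * u * v', ?_⟩
        rw [h1, em_units, map_mul, em_gg, hu, eG_inl, mul_units, hv', smul_smul, smul_smul]
        have h2 : ((insert (ι a) (eM ι ((S, α) : Mo O b)).1, (eM ι ((S, α) : Mo O b)).2) : Mo O' b) =
            eM ι ((insert a S, α) : Mo O b) := Prod.ext (Finset.map_insert ι a S).symm rfl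
        rw [h2]

/-- The coordinates of the image. -/
theorem co_em (ι : O ↪ O') (m : Mo O b) :
    ∃ u : ℤˣ, ∀ x : AA R O b, co (eM ι m) (em ι x) = u • co m x := by
  obtain ⟨u, hu⟩ := em_mon (R := R) ι m
  refine ⟨u, fun x => ?_⟩
  refine lin_ext (f := co (eM ι m) ∘ₗ (em ι).toLinearMap) (g := (u : ℤ) • co m) ?_ x
  intro m'
  rw [LinearMap.comp_apply, LinearMap.smul_apply, AlgHom.toLinearMap_apply]
  change co (eM ι m) (em ι (mon m')) = u • co m (mon (R := R) m')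
  by_cases h : m' = m
  · subst h
    rw [hu, co_units, co_mon, if_pos rfl, co_mon, if_pos rfl]
  · obtain ⟨u', hu'⟩ := em_mon (R := R) ι m'
    rw [co_mon, if_neg h, smul_zero, hu', co_units, co_mon, if_neg, smul_zero]
    exact fun h' => h (eM_injective ι h')

theorem co_em_zero (ι : O ↪ O') (m' : Mo O' b) (h : ∀ m, eM ι m ≠ m') (x : AA R O b) :
    co m' (em ι x) = 0 := by
  refine lin_ext (f := co m' ∘ₗ (em ι).toLinearMap) (g := 0) ?_ x
  intro m
  rw [LinearMap.comp_apply, LinearMap.zero_apply, AlgHom.toLinearMap_apply]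
  obtain ⟨u, hu⟩ := em_mon (R := R) ι m
  rw [hu, co_units, co_mon, if_neg (h m), smul_zero]

theorem em_injective (ι : O ↪ O') : Function.Injective (em (R := R) (b := b) ι) := by
  intro x y hxy
  apply co_ext
  intro m
  obtain ⟨u, hu⟩ := co_em (R := R) ι m
  have h : u • co m x = u • co m y := by rw [← hu, ← hu, hxy]
  have h2 := congrArg (fun z => u • z) h
  simpa only [smul_smul, Int.units_mul_self, one_smul] using h2

omit [Fintype O] [Fintype O'] [LinearOrder O'] [LinearOrder O] in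
/-- Monomials with all generators in the image. -/
theorem exists_eM (ι : O ↪ O') (m' : Mo O' b) (h : ∀ i ∈ m'.1, i ∈ Set.range ι) :
    ∃ m : Mo O b, eM ι m = m' := by
  classical
  refine ⟨(m'.1.preimage ι ι.injective.injOn, m'.2), Prod.ext ?_ rfl⟩
  change Finset.map ι _ = m'.1
  ext i
  rw [Finset.mem_map]
  constructor
  · rintro ⟨a, ha, rfl⟩
    have ha' : a ∈ m'.1.preimage ι ι.injective.injOn := ha
    exact Finset.mem_preimage.1 ha'
  · intro hi
    obtain ⟨a, rfl⟩ := h i hi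
    have ha' : a ∈ m'.1.preimage ι ι.injective.injOn := Finset.mem_preimage.2 hi
    exact ⟨a, ha', rfl⟩

/-- Elements without other generators are in the image. -/
theorem exists_em (ι : O ↪ O') (x' : AA R O' b)
    (h : ∀ m', co m' x' ≠ 0 → ∀ i ∈ m'.1, i ∈ Set.range ι) : ∃ x : AA R O b, em ι x = x' := by
  obtain ⟨s, hs, -⟩ := exists_sum x'
  have key : ∀ t : Finset (Mo O' b), ∃ x : AA R O b, em ι x = ∑ m ∈ t, co m x' • mon m := by
    intro t
    induction t using Finset.induction_on with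
    | empty => exact ⟨0, by rw [map_zero, Finset.sum_empty]⟩
    | insert m' t hm ih =>
      obtain ⟨x, hx⟩ := ih
      rw [Finset.sum_insert hm]
      by_cases h0 : co m' x' = 0
      · exact ⟨x, by rw [h0, zero_smul, zero_add, hx]⟩
      · obtain ⟨m, rfl⟩ := exists_eM ι m' (h m' h0)
        obtain ⟨u, hu⟩ := em_mon (R := R) ι m
        refine ⟨co (eM ι m) x' • (u • mon m) + x, ?_⟩
        rw [map_add, map_smul, em_units, hu, smul_smul u u, Int.units_mul_self, one_smul, hx]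
  obtain ⟨x, hx⟩ := key s
  exact ⟨x, by rw [hx, ← hs]⟩

omit [Fintype O] [LinearOrder O] [Fintype O'] [LinearOrder O'] in
theorem dd_inl_em (ι : O ↪ O') (i : O) (x : AA R O b) :
    dd (Sum.inl (ι i)) (em ι x) = em ι (dd (Sum.inl i) x) := by
  change con _ (emb b _ x) = emb b _ (con _ x)
  rw [con_emb]
  have h : (LinearMap.proj (ι i) : (O' → R) →ₗ[R] R) ∘ₗ exf R ι = LinearMap.proj i :=
    LinearMap.ext fun f => exf_apply ι f i
  rw [h]

omit [Fintype O] [LinearOrder O] [Fintype O'] [LinearOrder O'] in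
theorem dd_inl_em_zero (ι : O ↪ O') (i' : O') (h : i' ∉ Set.range ι) (x : AA R O b) :
    dd (Sum.inl i') (em ι x) = 0 := by
  change con _ (emb b _ x) = 0
  rw [con_emb]
  have : (LinearMap.proj i' : (O' → R) →ₗ[R] R) ∘ₗ exf R ι = 0 :=
    LinearMap.ext fun f => exf_apply' ι f i' (fun ⟨a, ha⟩ => h ⟨a, ha⟩)
  rw [this, con_zero_left, map_zero]

omit [Fintype O] [LinearOrder O] [Fintype O'] [LinearOrder O'] in
theorem dd_inr_em (ι : O ↪ O') (j : Fin b) (x : AA R O b) :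
    dd (Sum.inr j) (em ι x) = em ι (dd (Sum.inr j) x) := by
  change par _ (emb b _ x) = emb b _ (par _ x)
  rw [par_emb]

omit [LinearOrder O] [LinearOrder O'] in
/-- The differential on the image. -/
theorem d_em (ι : O ↪ O') (T : DD R O b) (T' : DD R O' b)
    (hT : ∀ g, T' (eG ι g) = em ι (T g)) (x : AA R O b) : T'.d (em ι x) = em ι (T.d x) := by
  rw [d_apply, d_apply, map_add, map_sum, map_sum]
  congr 1
  · have h1 : ∀ i' ∉ Finset.univ.map ι, T' (Sum.inl i') * dd (Sum.inl i') (em ι x) = 0 := by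
      intro i' hi'
      rw [dd_inl_em_zero, mul_zero]
      rintro ⟨a, rfl⟩
      exact hi' (Finset.mem_map.2 ⟨a, Finset.mem_univ _, rfl⟩)
    have h2 : ∀ i, T' (Sum.inl (ι i)) * dd (Sum.inl (ι i)) (em ι x) =
        em ι (T (Sum.inl i) * dd (Sum.inl i) x) := by
      intro i
      rw [dd_inl_em, map_mul, ← hT (Sum.inl i)]
      rfl
    refine (Finset.sum_subset (Finset.subset_univ (Finset.univ.map ι))
      (fun i' _ hi' => h1 i' hi')).symm.trans ?_
    rw [Finset.sum_map]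
    exact Finset.sum_congr rfl fun i _ => h2 i
  · have h2 : ∀ j, T' (Sum.inr j) * dd (Sum.inr j) (em ι x) =
        em ι (T (Sum.inr j) * dd (Sum.inr j) x) := by
      intro j
      rw [dd_inr_em, map_mul, ← hT (Sum.inr j)]
      rfl
    exact Finset.sum_congr rfl fun j _ => h2 j

omit [Fintype O] [LinearOrder O] [Fintype O'] [LinearOrder O'] in
theorem lin_eM (ι : O ↪ O') (δ : O ⊕ Fin b → ℤ) (δ' : O' ⊕ Fin b → ℤ)
    (hδ : ∀ g, δ' (eG ι g) = δ g) (m : Mo O b) : lin δ' (eM ι m) = lin δ m := by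
  unfold lin eM
  rw [Finset.sum_map]
  congr 1
  · exact Finset.sum_congr rfl fun i _ => hδ (Sum.inl i)
  · exact Finset.sum_congr rfl fun j _ => by rw [← hδ (Sum.inr j)]; rfl

omit [Fintype O] [LinearOrder O] [Fintype O'] [LinearOrder O'] in
theorem suppIn_eM (ι : O ↪ O') (S : Set (O ⊕ Fin b)) (m : Mo O b) :
    SuppIn (eG ι '' S) (eM ι m) ↔ SuppIn S m := by
  unfold SuppIn
  constructor
  · rintro ⟨h1, h2⟩
    refine ⟨fun i hi => ?_, fun j hj => ?_⟩
    · have := h1 (ι i) (Finset.mem_map.2 ⟨i, hi, rfl⟩)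
      rw [← eG_inl, (eG_injective ι).mem_set_image] at this
      exact this
    · have := h2 j hj
      rw [← eG_inr ι, (eG_injective ι).mem_set_image] at this
      exact this
  · rintro ⟨h1, h2⟩
    refine ⟨fun i' hi' => ?_, fun j hj => ?_⟩
    · obtain ⟨i, hi, rfl⟩ := Finset.mem_map.1 hi'
      exact ⟨_, h1 i hi, rfl⟩
    · exact ⟨_, h2 j hj, rfl⟩

omit [Fintype O] [LinearOrder O] [Fintype O'] [LinearOrder O'] in
theorem suppIn_range (ι : O ↪ O') (S : Set (O ⊕ Fin b)) (m' : Mo O' b)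
    (h : SuppIn (eG ι '' S) m') : ∀ i ∈ m'.1, i ∈ Set.range ι := by
  intro i hi
  obtain ⟨g, -, hg⟩ := h.1 i hi
  rcases g with a | j
  · exact ⟨a, Sum.inl.inj hg⟩
  · exact absurd hg (by simp [eG])

section Fam

variable {k : Type u} [Field k] [Algebra k R]

theorem units_mem_iff (C : Submodule k R) (u : ℤˣ) (r : R) : u • r ∈ C ↔ r ∈ C := by
  rcases Int.units_eq_one_or u with rfl | rfl
  · rw [one_smul]
  · rw [Units.neg_smul, one_smul, C.neg_mem_iff]

/-- The image of a family. -/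
theorem em_mem_iff (ι : O ↪ O') (δ : O ⊕ Fin b → ℤ) (δ' : O' ⊕ Fin b → ℤ)
    (hδ : ∀ g, δ' (eG ι g) = δ g) (S : Set (O ⊕ Fin b)) (n : ℤ)
    (φ : Mo O b → Submodule k R) (φ' : Mo O' b → Submodule k R) (hφ : ∀ m, φ' (eM ι m) = φ m)
    (x : AA R O b) : em ι x ∈ Pc (Cd δ' (eG ι '' S) n φ') ↔ x ∈ Pc (Cd δ S n φ) := by
  have hC : ∀ m, Cd δ' (eG ι '' S) n φ' (eM ι m) = Cd δ S n φ m := by
    intro m
    unfold Cd
    rw [lin_eM ι δ δ' hδ, hφ]
    by_cases h : SuppIn S m ∧ lin δ m = n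
    · rw [if_pos h, if_pos ⟨(suppIn_eM ι S m).2 h.1, h.2⟩]
    · rw [if_neg h, if_neg fun h' => h ⟨(suppIn_eM ι S m).1 h'.1, h'.2⟩]
  rw [mem_Pc, mem_Pc]
  constructor
  · intro h m
    obtain ⟨u, hu⟩ := co_em (R := R) ι m
    have := h (eM ι m)
    rw [hC, hu, units_mem_iff] at this
    exact this
  · intro h m'
    by_cases hm : ∃ m, eM ι m = m'
    · obtain ⟨m, rfl⟩ := hm
      obtain ⟨u, hu⟩ := co_em (R := R) ι m
      rw [hC, hu, units_mem_iff]
      exact h m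
    · rw [co_em_zero ι m' (fun m hm' => hm ⟨m, hm'⟩)]
      exact Submodule.zero_mem _

/-- A family is the image. -/
theorem exists_em_mem (ι : O ↪ O') (δ : O ⊕ Fin b → ℤ) (δ' : O' ⊕ Fin b → ℤ)
    (hδ : ∀ g, δ' (eG ι g) = δ g) (S : Set (O ⊕ Fin b)) (n : ℤ)
    (φ : Mo O b → Submodule k R) (φ' : Mo O' b → Submodule k R) (hφ : ∀ m, φ' (eM ι m) = φ m)
    {x' : AA R O' b} (hx' : x' ∈ Pc (Cd δ' (eG ι '' S) n φ')) :
    ∃ x ∈ Pc (Cd δ S n φ), em ι x = x' := by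
  obtain ⟨x, rfl⟩ := exists_em ι x' (by
    intro m' hm'
    exact suppIn_range ι S m' ((mem_Cd.1 (hx' m')).1 hm').1)
  exact ⟨x, (em_mem_iff ι δ δ' hδ S n φ φ' hφ x).1 hx', rfl⟩

omit [Fintype O] [LinearOrder O] [Fintype O'] [LinearOrder O'] in
theorem suppIn_eM' (ι : O ↪ O') (S' : Set (O' ⊕ Fin b)) (m : Mo O b) :
    SuppIn S' (eM ι m) ↔ SuppIn (eG ι ⁻¹' S') m := by
  unfold SuppIn
  constructor
  · rintro ⟨h1, h2⟩
    exact ⟨fun i hi => h1 (ι i) (Finset.mem_map.2 ⟨i, hi, rfl⟩), fun j hj => h2 j hj⟩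
  · rintro ⟨h1, h2⟩
    refine ⟨fun i' hi' => ?_, fun j hj => h2 j hj⟩
    obtain ⟨i, hi, rfl⟩ := Finset.mem_map.1 hi'
    exact h1 i hi

/-- The image of an element in a family, any set of generators. -/
theorem em_mem_iff' (ι : O ↪ O') (δ : O ⊕ Fin b → ℤ) (δ' : O' ⊕ Fin b → ℤ)
    (hδ : ∀ g, δ' (eG ι g) = δ g) (S' : Set (O' ⊕ Fin b)) (n : ℤ)
    (φ : Mo O b → Submodule k R) (φ' : Mo O' b → Submodule k R) (hφ : ∀ m, φ' (eM ι m) = φ m)
    (x : AA R O b) : em ι x ∈ Pc (Cd δ' S' n φ') ↔ x ∈ Pc (Cd δ (eG ι ⁻¹' S') n φ) := by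
  have hC : ∀ m, Cd δ' S' n φ' (eM ι m) = Cd δ (eG ι ⁻¹' S') n φ m := by
    intro m
    unfold Cd
    rw [lin_eM ι δ δ' hδ, hφ]
    by_cases h : SuppIn (eG ι ⁻¹' S') m ∧ lin δ m = n
    · rw [if_pos h, if_pos ⟨(suppIn_eM' ι S' m).2 h.1, h.2⟩]
    · rw [if_neg h, if_neg fun h' => h ⟨(suppIn_eM' ι S' m).1 h'.1, h'.2⟩]
  rw [mem_Pc, mem_Pc]
  constructor
  · intro h m
    obtain ⟨u, hu⟩ := co_em (R := R) ι m
    have := h (eM ι m)
    rw [hC, hu, units_mem_iff] at this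
    exact this
  · intro h m'
    by_cases hm : ∃ m, eM ι m = m'
    · obtain ⟨m, rfl⟩ := hm
      obtain ⟨u, hu⟩ := co_em (R := R) ι m
      rw [hC, hu, units_mem_iff]
      exact h m
    · rw [co_em_zero ι m' (fun m hm' => hm ⟨m, hm'⟩)]
      exact Submodule.zero_mem _

variable {ι : O ↪ O'} {δ : O ⊕ Fin b → ℤ} {δ' : O' ⊕ Fin b → ℤ}
  {w : O ⊕ Fin b → ℤ} {w' : O' ⊕ Fin b → ℤ} {𝒜 : ℕ → Submodule k R}

theorem em_mem_Ft (hδ : ∀ g, δ' (eG ι g) = δ g) (S : Set (O ⊕ Fin b)) (n : ℤ) (x : AA R O b) :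
    em ι x ∈ Ft k δ' (eG ι '' S) n ↔ x ∈ Ft k δ S n :=
  em_mem_iff ι δ δ' hδ S n _ _ (fun _ => rfl) x

theorem em_mem_Ft' (hδ : ∀ g, δ' (eG ι g) = δ g) (S' : Set (O' ⊕ Fin b)) (n : ℤ)
    (x : AA R O b) : em ι x ∈ Ft k δ' S' n ↔ x ∈ Ft k δ (eG ι ⁻¹' S') n :=
  em_mem_iff' ι δ δ' hδ S' n _ _ (fun _ => rfl) x

theorem exists_em_Ft (hδ : ∀ g, δ' (eG ι g) = δ g) (S : Set (O ⊕ Fin b)) (n : ℤ)
    {x' : AA R O' b} (hx' : x' ∈ Ft k δ' (eG ι '' S) n) : ∃ x ∈ Ft k δ S n, em ι x = x' :=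
  exists_em_mem ι δ δ' hδ S n _ _ (fun _ => rfl) hx'

theorem em_mem_Fw (hδ : ∀ g, δ' (eG ι g) = δ g) (hw : ∀ g, w' (eG ι g) = w g)
    (S : Set (O ⊕ Fin b)) (n p : ℤ) (x : AA R O b) :
    em ι x ∈ Fw 𝒜 δ' w' (eG ι '' S) n p ↔ x ∈ Fw 𝒜 δ w S n p :=
  em_mem_iff ι δ δ' hδ S n _ _ (fun m => by rw [lin_eM ι w w' hw]) x

theorem em_mem_Fw' (hδ : ∀ g, δ' (eG ι g) = δ g) (hw : ∀ g, w' (eG ι g) = w g)
    (S' : Set (O' ⊕ Fin b)) (n p : ℤ) (x : AA R O b) :
    em ι x ∈ Fw 𝒜 δ' w' S' n p ↔ x ∈ Fw 𝒜 δ w (eG ι ⁻¹' S') n p :=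
  em_mem_iff' ι δ δ' hδ S' n _ _ (fun m => by rw [lin_eM ι w w' hw]) x

theorem exists_em_Fw (hδ : ∀ g, δ' (eG ι g) = δ g) (hw : ∀ g, w' (eG ι g) = w g)
    (S : Set (O ⊕ Fin b)) (n p : ℤ) {x' : AA R O' b}
    (hx' : x' ∈ Fw 𝒜 δ' w' (eG ι '' S) n p) : ∃ x ∈ Fw 𝒜 δ w S n p, em ι x = x' :=
  exists_em_mem ι δ δ' hδ S n _ _ (fun m => by rw [lin_eM ι w w' hw]) hx'

theorem em_mem_Fq (hδ : ∀ g, δ' (eG ι g) = δ g) (hw : ∀ g, w' (eG ι g) = w g)
    (S : Set (O ⊕ Fin b)) (n q : ℤ) (x : AA R O b) :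
    em ι x ∈ Fq 𝒜 δ' w' (eG ι '' S) n q ↔ x ∈ Fq 𝒜 δ w S n q :=
  em_mem_iff ι δ δ' hδ S n _ _ (fun m => by rw [lin_eM ι w w' hw]) x

theorem em_mem_Fq' (hδ : ∀ g, δ' (eG ι g) = δ g) (hw : ∀ g, w' (eG ι g) = w g)
    (S' : Set (O' ⊕ Fin b)) (n q : ℤ) (x : AA R O b) :
    em ι x ∈ Fq 𝒜 δ' w' S' n q ↔ x ∈ Fq 𝒜 δ w (eG ι ⁻¹' S') n q :=
  em_mem_iff' ι δ δ' hδ S' n _ _ (fun m => by rw [lin_eM ι w w' hw]) x

theorem exists_em_Fq (hδ : ∀ g, δ' (eG ι g) = δ g) (hw : ∀ g, w' (eG ι g) = w g)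
    (S : Set (O ⊕ Fin b)) (n q : ℤ) {x' : AA R O' b}
    (hx' : x' ∈ Fq 𝒜 δ' w' (eG ι '' S) n q) : ∃ x ∈ Fq 𝒜 δ w S n q, em ι x = x' :=
  exists_em_mem ι δ δ' hδ S n _ _ (fun m => by rw [lin_eM ι w w' hw]) hx'

variable {T : DD R O b} {T' : DD R O' b}

/-- Graded data restrict. -/
theorem Gr_em (hδ : ∀ g, δ' (eG ι g) = δ g) (hw : ∀ g, w' (eG ι g) = w g)
    (hT : ∀ g, T' (eG ι g) = em ι (T g)) (h : Gr 𝒜 δ' w' T') : Gr 𝒜 δ w T where
  odd i := by rw [← hδ]; exact h.odd (ι i)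
  even j := by rw [← hδ]; exact h.even j
  pos g := by rw [← hδ]; exact h.pos _
  wpos g := by rw [← hw]; exact h.wpos _
  val g := by
    have := h.val (eG ι g)
    rw [hT, em_mem_Fw' hδ hw, Set.preimage_univ, hδ, hw] at this
    exact this
  sq g := by
    apply em_injective ι
    rw [map_zero, ← d_em ι T T' hT, ← hT]
    exact h.sq _

/-- Closed sets of generators correspond. -/
theorem Cl_em (hδ : ∀ g, δ' (eG ι g) = δ g) (hT : ∀ g, T' (eG ι g) = em ι (T g))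
    (S : Set (O ⊕ Fin b)) : Cl k δ' T' (eG ι '' S) ↔ Cl k δ T S := by
  unfold Cl
  rw [Set.forall_mem_image]
  refine forall₂_congr fun g _ => ?_
  rw [hT, em_mem_Ft hδ, hδ]

end Fam

end

end Pool.Agent.Helper59.QB
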