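import Mathlib
import Pool.Agent.Helper59.QB.Tr
import Pool.Agent.Helper67.QB.Sup

/-!
PROJECT QB, leaf (T4): vanishing homology and the top degree of the homology are transferred along
an embedding `ι : O ↪ O'` of the odd generators.
-/

set_option autoImplicit false

open Pool.Agent.Helper44.QA Pool.Agent.Helper44.QB
open Pool.Agent.Helper67.QB (Ex IsSup)

namespace Pool.Agent.Helper59.QB

universe u

variable {R : Type u} [CommRing R] {O : Type} [Fintype O] [LinearOrder O]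
  {O' : Type} [Fintype O'] [LinearOrder O'] {b : ℕ}
  {k : Type u} [Field k] [Algebra k R]
  {ι : O ↪ O'} {δ : O ⊕ Fin b → ℤ} {δ' : O' ⊕ Fin b → ℤ}
  {w : O ⊕ Fin b → ℤ} {w' : O' ⊕ Fin b → ℤ} {𝒜 : ℕ → Submodule k R}
  {T : DD R O b} {T' : DD R O' b}

/-- Transfer of vanishing homology. -/
theorem Ex_em (hT : ∀ g, T' (eG ι g) = em ι (T g))
    {A : ℤ → AddSubgroup (AA R O b)} {A' : ℤ → AddSubgroup (AA R O' b)}
    (h1 : ∀ n x, em ι x ∈ A' n ↔ x ∈ A n) (h2 : ∀ n, ∀ x' ∈ A' n, ∃ x ∈ A n, em ι x = x')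
    (n : ℤ) : Ex T'.d.toAddMonoidHom A' n ↔ Ex T.d.toAddMonoidHom A n := by
  constructor
  · intro h z hz hdz
    obtain ⟨y', hy', hy⟩ := h (em ι z) ((h1 n z).2 hz) (by
      change T'.d (em ι z) = 0
      rw [d_em ι T T' hT, show T.d z = 0 from hdz, map_zero])
    obtain ⟨y, hyA, rfl⟩ := h2 _ y' hy'
    refine ⟨y, hyA, em_injective ι ?_⟩
    change em ι (T.d y) = em ι z
    rw [← d_em ι T T' hT]
    exact hy
  · intro h z' hz' hdz'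
    obtain ⟨z, hz, rfl⟩ := h2 _ z' hz'
    obtain ⟨y, hy, hyz⟩ := h z hz (by
      apply em_injective ι
      rw [map_zero]
      change em ι (T.d z) = 0
      rw [← d_em ι T T' hT]
      exact hdz')
    refine ⟨em ι y, (h1 _ y).2 hy, ?_⟩
    change T'.d (em ι y) = em ι z
    rw [d_em ι T T' hT]
    exact congrArg (em ι) hyz

/-- Transfer of the top degree of the homology. -/
theorem IsSup_em (hT : ∀ g, T' (eG ι g) = em ι (T g))
    {A : ℤ → AddSubgroup (AA R O b)} {A' : ℤ → AddSubgroup (AA R O' b)}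
    (h1 : ∀ n x, em ι x ∈ A' n ↔ x ∈ A n) (h2 : ∀ n, ∀ x' ∈ A' n, ∃ x ∈ A n, em ι x = x')
    (s : ℤ) : IsSup T'.d.toAddMonoidHom A' s ↔ IsSup T.d.toAddMonoidHom A s := by
  constructor
  · rintro ⟨h3, h4⟩
    exact ⟨fun n hn => (Ex_em hT h1 h2 n).1 (h3 n hn), fun h => h4 ((Ex_em hT h1 h2 s).2 h)⟩
  · rintro ⟨h3, h4⟩
    exact ⟨fun n hn => (Ex_em hT h1 h2 n).2 (h3 n hn), fun h => h4 ((Ex_em hT h1 h2 s).1 h)⟩

theorem Ex_Ft_em (hδ : ∀ g, δ' (eG ι g) = δ g) (hT : ∀ g, T' (eG ι g) = em ι (T g))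
    (S : Set (O ⊕ Fin b)) (n : ℤ) :
    Ex T'.d.toAddMonoidHom (fun n => (Ft k δ' (eG ι '' S) n).toAddSubgroup) n ↔
      Ex T.d.toAddMonoidHom (fun n => (Ft k δ S n).toAddSubgroup) n :=
  Ex_em hT (fun n x => em_mem_Ft hδ S n x) (fun n _ hx' => exists_em_Ft hδ S n hx') n

theorem IsSup_Ft_em (hδ : ∀ g, δ' (eG ι g) = δ g) (hT : ∀ g, T' (eG ι g) = em ι (T g))
    (S : Set (O ⊕ Fin b)) (s : ℤ) :
    IsSup T'.d.toAddMonoidHom (fun n => (Ft k δ' (eG ι '' S) n).toAddSubgroup) s ↔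
      IsSup T.d.toAddMonoidHom (fun n => (Ft k δ S n).toAddSubgroup) s :=
  IsSup_em hT (fun n x => em_mem_Ft hδ S n x) (fun n _ hx' => exists_em_Ft hδ S n hx') s

theorem Ex_Fw_em (hδ : ∀ g, δ' (eG ι g) = δ g) (hw : ∀ g, w' (eG ι g) = w g)
    (hT : ∀ g, T' (eG ι g) = em ι (T g)) (S : Set (O ⊕ Fin b)) (p n : ℤ) :
    Ex T'.d.toAddMonoidHom (fun n => (Fw 𝒜 δ' w' (eG ι '' S) n p).toAddSubgroup) n ↔
      Ex T.d.toAddMonoidHom (fun n => (Fw 𝒜 δ w S n p).toAddSubgroup) n :=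
  Ex_em hT (fun n x => em_mem_Fw hδ hw S n p x) (fun n _ hx' => exists_em_Fw hδ hw S n p hx') n

theorem IsSup_Fw_em (hδ : ∀ g, δ' (eG ι g) = δ g) (hw : ∀ g, w' (eG ι g) = w g)
    (hT : ∀ g, T' (eG ι g) = em ι (T g)) (S : Set (O ⊕ Fin b)) (p s : ℤ) :
    IsSup T'.d.toAddMonoidHom (fun n => (Fw 𝒜 δ' w' (eG ι '' S) n p).toAddSubgroup) s ↔
      IsSup T.d.toAddMonoidHom (fun n => (Fw 𝒜 δ w S n p).toAddSubgroup) s :=
  IsSup_em hT (fun n x => em_mem_Fw hδ hw S n p x) (fun n _ hx' => exists_em_Fw hδ hw S n p hx') s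

theorem Ex_Fq_em (hδ : ∀ g, δ' (eG ι g) = δ g) (hw : ∀ g, w' (eG ι g) = w g)
    (hT : ∀ g, T' (eG ι g) = em ι (T g)) (S : Set (O ⊕ Fin b)) (q n : ℤ) :
    Ex T'.d.toAddMonoidHom (fun n => (Fq 𝒜 δ' w' (eG ι '' S) n q).toAddSubgroup) n ↔
      Ex T.d.toAddMonoidHom (fun n => (Fq 𝒜 δ w S n q).toAddSubgroup) n :=
  Ex_em hT (fun n x => em_mem_Fq hδ hw S n q x) (fun n _ hx' => exists_em_Fq hδ hw S n q hx') n

/-- The weight form, one weight at a time. -/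
theorem exFw_em (hδ : ∀ g, δ' (eG ι g) = δ g) (hw : ∀ g, w' (eG ι g) = w g)
    (hT : ∀ g, T' (eG ι g) = em ι (T g)) (S : Set (O ⊕ Fin b)) (n p : ℤ) :
    (∀ z ∈ Fw 𝒜 δ' w' (eG ι '' S) n p, T'.d z = 0 →
        ∃ y ∈ Fw 𝒜 δ' w' (eG ι '' S) (n + 1) p, T'.d y = z) ↔
      ∀ z ∈ Fw 𝒜 δ w S n p, T.d z = 0 → ∃ y ∈ Fw 𝒜 δ w S (n + 1) p, T.d y = z :=
  Ex_Fw_em hδ hw hT S p n

omit [Fintype O] [LinearOrder O] [Fintype O'] [LinearOrder O'] in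
/-- The set of all generators. -/
theorem eG_image_univ : eG ι '' (Set.univ : Set (O ⊕ Fin b)) = Set.range (eG (b := b) ι) :=
  Set.image_univ

end Pool.Agent.Helper59.QB
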