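import Mathlib

/-!
PROJECT QB, leaf (F): a homogeneous ideal of finite codimension contains all elements of large
degree and a power of every homogeneous element of positive degree.
-/

set_option autoImplicit false

namespace Pool.Agent.Helper59.QB

open DirectSum

variable {k A : Type*} [Field k] [CommRing A] [Algebra k A] (𝒜 : ℕ → Submodule k A)
  [GradedAlgebra 𝒜]

/-- The component of a finite sum of homogeneous elements of different degrees. -/
theorem decompose_sum_apply {ι : Type*} (s : Finset ι) (f : ι → ℕ) (hf : Function.Injective f)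
    (a : ι → A) (ha : ∀ i, a i ∈ 𝒜 (f i)) (i : ι) (hi : i ∈ s) :
    ((decompose 𝒜 (∑ j ∈ s, a j) (f i) : 𝒜 (f i)) : A) = a i := by
  rw [decompose_sum, DFinsupp.finsetSum_apply, AddSubmonoidClass.coe_finsetSum,
    Finset.sum_eq_single_of_mem i hi]
  · exact decompose_of_mem_same 𝒜 (ha i)
  · intro j _ hj
    exact decompose_of_mem_ne 𝒜 (ha j) (fun h => hj (hf h))

/-- A homogeneous ideal of finite codimension contains all elements of large degree. -/
theorem large_of_finite {J : Ideal A} (hJ : J.IsHomogeneous 𝒜) (hfin : Module.Finite k (A ⧸ J)) :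
    ∃ n0 : ℕ, ∀ n, n0 ≤ n → ∀ a ∈ 𝒜 n, a ∈ J := by
  have hN : ∀ n : {n : ℕ // ∃ a ∈ 𝒜 n, a ∉ J}, ∃ a, a ∈ 𝒜 n ∧ a ∉ J := fun n => by
    obtain ⟨a, h1, h2⟩ := n.2
    exact ⟨a, h1, h2⟩
  choose v hv1 hv2 using hN
  have hli : LinearIndependent k (fun n => Ideal.Quotient.mkₐ k J (v n)) := by
    rw [linearIndependent_iff']
    intro s g hg i hi
    by_contra hgi
    have h1 : ∑ j ∈ s, g j • v j ∈ J := by
      rw [← Ideal.Quotient.eq_zero_iff_mem]
      have h2 : Ideal.Quotient.mkₐ k J (∑ j ∈ s, g j • v j) = 0 := by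
        rw [map_sum, ← hg]
        exact Finset.sum_congr rfl fun j _ => map_smul _ _ _
      exact h2
    have h2 := hJ i h1
    rw [decompose_sum_apply 𝒜 s (fun n : {n : ℕ // ∃ a ∈ 𝒜 n, a ∉ J} => (n : ℕ))
      Subtype.val_injective (fun j => g j • v j) (fun j => (𝒜 j).smul_mem _ (hv1 j)) i hi] at h2
    apply hv2 i
    have h3 : algebraMap k A (g i)⁻¹ * (g i • v i) ∈ J := J.mul_mem_left _ h2
    rwa [← Algebra.smul_def, smul_smul, inv_mul_cancel₀ hgi, one_smul] at h3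
  have hf : Finite {n : ℕ // ∃ a ∈ 𝒜 n, a ∉ J} := hli.finite_of_isNoetherian
  have hf2 : {n : ℕ | ∃ a ∈ 𝒜 n, a ∉ J}.Finite := hf
  obtain ⟨n0, hn0⟩ := hf2.bddAbove
  refine ⟨n0 + 1, fun n hn a ha => ?_⟩
  by_contra h
  have := hn0 (show n ∈ {n : ℕ | ∃ a ∈ 𝒜 n, a ∉ J} from ⟨a, ha, h⟩)
  omega

/-- A power of a homogeneous element of positive degree is in the ideal. -/
theorem pow_mem_of_finite {J : Ideal A} (hJ : J.IsHomogeneous 𝒜) (hfin : Module.Finite k (A ⧸ J))
    {e : ℕ} (he : 0 < e) {a : A} (ha : a ∈ 𝒜 e) : ∃ N : ℕ, a ^ N ∈ J := by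
  obtain ⟨n0, hn0⟩ := large_of_finite 𝒜 hJ hfin
  refine ⟨n0, hn0 (n0 • e) ?_ _ (SetLike.pow_mem_graded n0 ha)⟩
  rw [smul_eq_mul]
  exact Nat.le_mul_of_pos_right n0 he

end Pool.Agent.Helper59.QB
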